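import Pool.Agent.Run7.h991.MU.Iface

/-!
# Piece COUNT of the project MU (MP_dde81e_an)
-/

open MeasureTheory Metric

namespace H991.MU

theorem h73_ico_card (x ρ : ℝ) (hx : 0 ≤ x) (hρ : 0 ≤ ρ) :
    ((Finset.Ico ⌈x⌉₊ ⌈x + ρ⌉₊).card : ℝ) ≤ ρ + 1 := by
  rw [Nat.card_Ico]
  have h1 : ⌈x⌉₊ ≤ ⌈x + ρ⌉₊ := Nat.ceil_mono (by linarith)
  rw [Nat.cast_sub h1]
  have h2 := Nat.le_ceil x
  have h3 := Nat.ceil_lt_add_one (show (0 : ℝ) ≤ x + ρ by linarith)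
  linarith

theorem h73_floor_bounds {ρ : ℝ} (hρ : 0 < ρ) {n a : ℕ} (h : ⌊(n : ℝ) / ρ⌋₊ = a) :
    (a : ℝ) * ρ ≤ n ∧ (n : ℝ) < (a : ℝ) * ρ + ρ := by
  have h0 : (0 : ℝ) ≤ (n : ℝ) / ρ := by positivity
  have h1 := Nat.floor_le h0
  have h2 := Nat.lt_floor_add_one ((n : ℝ) / ρ)
  rw [h] at h1 h2
  rw [le_div_iff₀ hρ] at h1
  rw [div_lt_iff₀ hρ] at h2
  exact ⟨h1, by linarith⟩

theorem h73_mem_ico {ρ : ℝ} (hρ : 0 < ρ) {n a : ℕ} (h : ⌊(n : ℝ) / ρ⌋₊ = a) :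
    n ∈ Finset.Ico ⌈(a : ℝ) * ρ⌉₊ ⌈(a : ℝ) * ρ + ρ⌉₊ := by
  obtain ⟨h1, h2⟩ := h73_floor_bounds hρ h
  rw [Finset.mem_Ico]
  exact ⟨Nat.ceil_le.2 h1, Nat.lt_ceil.2 h2⟩

open Classical in
theorem t_COUNT : S_COUNT := by
  intro Ω ε δ τ κ Bd bad hε hε1 hδ hτ hκ hκ1 hBd hτδ hκτ hκB hA hD hbad
  by_contra hcon
  have hετ : ε * τ ≤ τ := by nlinarith
  have key : ∀ s : ℕ × ℕ, ∃ R₀ : ℝ, ¬ bad s.1 s.2 → τ / 2 ≤ s.1 * κ → (s.1 : ℝ) * κ ≤ 1 →
      ε * τ / 2 ≤ s.2 * κ → (s.2 : ℝ) * κ ≤ 1 → ∀ R : ℝ, R₀ ≤ R → ∀ Z : Finset (ℕ × ℕ),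
      (Z : Set (ℕ × ℕ)) ⊆ Ω →
      (∀ p ∈ Z, R * (s.1 * κ) ≤ (p.1 : ℝ) ∧ (p.1 : ℝ) ≤ R * (s.1 * κ) + κ * R ∧
          R * (s.2 * κ) ≤ (p.2 : ℝ) ∧ (p.2 : ℝ) ≤ R * (s.2 * κ) + κ * R) →
      (Z.card : ℝ) < δ / 16 * (κ * R) ^ 2 := by
    intro s
    by_contra hs
    push Not at hs
    refine hcon ⟨s.1, s.2, (hs 0).1, (hs 0).2.1, (hs 0).2.2.1, (hs 0).2.2.2.1, (hs 0).2.2.2.2.1, ?_⟩
    intro R₀
    obtain ⟨-, -, -, -, -, R, hR, Z, h1, h2, h3⟩ := hs R₀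
    exact ⟨R, hR, Z, h1, h2, h3⟩
  choose R₀ hR₀ using key
  set M : ℕ := ⌊1 / κ⌋₊ with hM
  set I : Finset ℕ := Finset.Icc 1 M with hI
  have hMκ : (M : ℝ) * κ ≤ 1 := by
    have := Nat.floor_le (show (0 : ℝ) ≤ 1 / κ by positivity)
    rw [← hM, le_div_iff₀ hκ] at this
    exact this
  have hIcard : (I.card : ℝ) * κ ≤ 1 := by
    rw [hI, Nat.card_Icc]
    simpa using hMκ
  set Rm : ℝ := ∑ s ∈ I ×ˢ I, |R₀ s| with hRm
  have hRm0 : 0 ≤ Rm := Finset.sum_nonneg fun _ _ => abs_nonneg _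
  obtain ⟨N, hN, hden⟩ := hD ⌈Rm + 1 / κ + 1⌉₊
  set R : ℝ := (N : ℝ) with hRdef
  have hNR : Rm + 1 / κ + 1 ≤ R := le_trans (Nat.le_ceil _) (Nat.cast_le.2 hN)
  have hκinv : 0 < 1 / κ := by positivity
  have hRpos : 0 < R := by linarith
  have hρ1 : 1 ≤ κ * R := by
    have : 1 / κ ≤ R := by linarith
    rw [div_le_iff₀ hκ] at this
    linarith
  have hρ : 0 < κ * R := by linarith
  have hRle : ∀ s ∈ I ×ˢ I, R₀ s ≤ R := by
    intro s hs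
    have h1 : |R₀ s| ≤ Rm := Finset.single_le_sum (f := fun s => |R₀ s|)
      (fun _ _ => abs_nonneg _) hs
    have h2 := le_abs_self (R₀ s)
    linarith
  -- the points
  set P : Finset (ℕ × ℕ) :=
    (Finset.range (N + 1) ×ˢ Finset.range (N + 1)).filter (fun p => p ∈ Ω) with hP
  have hPcard : ({p ∈ Ω | p.1 ≤ N ∧ p.2 ≤ N}.ncard : ℝ) = P.card := by
    have : {p ∈ Ω | p.1 ≤ N ∧ p.2 ≤ N} = (P : Set (ℕ × ℕ)) := by
      ext p
      simp only [hP, Set.mem_ofPred_eq, Finset.coe_filter, Finset.mem_product, Finset.mem_range,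
        Nat.lt_succ_iff]
      tauto
    rw [this, Set.ncard_coe_finset]
  rw [hPcard] at hden
  have hPmem : ∀ p ∈ P, p ∈ Ω ∧ (p.1 : ℝ) ≤ R ∧ (p.2 : ℝ) ≤ R := by
    intro p hp
    simp only [hP, Finset.mem_filter, Finset.mem_product, Finset.mem_range, Nat.lt_succ_iff] at hp
    exact ⟨hp.2, Nat.cast_le.2 hp.1.1, Nat.cast_le.2 hp.1.2⟩
  set P0 : Finset (ℕ × ℕ) := P.filter (fun p => (p.1 : ℝ) ≤ τ * R) with hP0
  set P1 : Finset (ℕ × ℕ) := P.filter (fun p => ¬ (p.1 : ℝ) ≤ τ * R) with hP1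
  have hsplit : P0.card + P1.card = P.card := Finset.card_filter_add_card_filter_not _
  -- the points near the left side
  have hP0card : (P0.card : ℝ) ≤ δ / 4 * R ^ 2 := by
    have hsub : P0 ⊆ (Finset.Icc 1 ⌊τ * R⌋₊) ×ˢ (Finset.Icc 1 ⌊τ * R / ε⌋₊) := by
      intro p hp
      rw [hP0, Finset.mem_filter] at hp
      obtain ⟨hpΩ, -, -⟩ := hPmem p hp.1
      obtain ⟨h1, h2, h3, h4⟩ := hA p hpΩ
      rw [Finset.mem_product, Finset.mem_Icc, Finset.mem_Icc]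
      refine ⟨⟨h1, Nat.le_floor hp.2⟩, h2, Nat.le_floor ?_⟩
      rw [le_div_iff₀ hε]
      linarith [hp.2]
    have h1 : (P0.card : ℝ) ≤ (⌊τ * R⌋₊ : ℝ) * ⌊τ * R / ε⌋₊ := by
      have := Finset.card_le_card hsub
      rw [Finset.card_product, Nat.card_Icc, Nat.card_Icc] at this
      simp only [Nat.add_sub_cancel] at this
      exact_mod_cast this
    have h2 : (⌊τ * R⌋₊ : ℝ) ≤ τ * R := Nat.floor_le (by positivity)
    have h3 : (⌊τ * R / ε⌋₊ : ℝ) ≤ τ * R / ε := Nat.floor_le (by positivity)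
    have h4 : (⌊τ * R⌋₊ : ℝ) * ⌊τ * R / ε⌋₊ ≤ (τ * R) * (τ * R / ε) :=
      mul_le_mul h2 h3 (by positivity) (by positivity)
    have h5 : (τ * R) * (τ * R / ε) = τ ^ 2 / ε * R ^ 2 := by
      field_simp
    have h6 : τ ^ 2 / ε ≤ δ / 4 := by
      rw [div_le_iff₀ hε]; linarith
    have h7 : τ ^ 2 / ε * R ^ 2 ≤ δ / 4 * R ^ 2 := mul_le_mul_of_nonneg_right h6 (by positivity)
    linarith
  -- the squares
  let φ : ℕ × ℕ → ℕ × ℕ := fun p => (⌊(p.1 : ℝ) / (κ * R)⌋₊, ⌊(p.2 : ℝ) / (κ * R)⌋₊)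
  have hcond : ∀ p ∈ P1, τ / 2 ≤ (φ p).1 * κ ∧ ((φ p).1 : ℝ) * κ ≤ 1 ∧
      ε * τ / 2 ≤ (φ p).2 * κ ∧ ((φ p).2 : ℝ) * κ ≤ 1 := by
    intro p hp
    rw [hP1, Finset.mem_filter, not_le] at hp
    obtain ⟨hpΩ, hx, hy⟩ := hPmem p hp.1
    obtain ⟨h1, h2, h3, h4⟩ := hA p hpΩ
    obtain ⟨ha1, ha2⟩ := h73_floor_bounds hρ (show ⌊(p.1 : ℝ) / (κ * R)⌋₊ = (φ p).1 from rfl)
    obtain ⟨hb1, hb2⟩ := h73_floor_bounds hρ (show ⌊(p.2 : ℝ) / (κ * R)⌋₊ = (φ p).2 from rfl)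
    have e1 : (((φ p).1 : ℝ) * κ) * R ≤ 1 * R := by linarith
    have e2 : (((φ p).2 : ℝ) * κ) * R ≤ 1 * R := by linarith
    have e3 : (τ / 2) * R ≤ (((φ p).1 : ℝ) * κ) * R := by
      have : κ * R ≤ τ / 2 * R := mul_le_mul_of_nonneg_right (by linarith) hRpos.le
      linarith [hp.2]
    have e4 : (ε * τ / 2) * R ≤ (((φ p).2 : ℝ) * κ) * R := by
      have h5 : κ * R ≤ ε * τ / 2 * R := mul_le_mul_of_nonneg_right hκτ hRpos.le
      have h6 : ε * (τ * R) ≤ ε * (p.1 : ℝ) := mul_le_mul_of_nonneg_left hp.2.le hε.le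
      linarith
    exact ⟨le_of_mul_le_mul_right e3 hRpos, le_of_mul_le_mul_right e1 hRpos,
      le_of_mul_le_mul_right e4 hRpos, le_of_mul_le_mul_right e2 hRpos⟩
  have hmaps : ∀ p ∈ P1, φ p ∈ I ×ˢ I := by
    intro p hp
    obtain ⟨h1, h2, h3, h4⟩ := hcond p hp
    have g : ∀ a : ℕ, 0 < (a : ℝ) * κ → (a : ℝ) * κ ≤ 1 → a ∈ I := by
      intro a h5 h6
      rw [hI, Finset.mem_Icc]
      refine ⟨?_, ?_⟩
      · rcases Nat.eq_zero_or_pos a with h0 | h0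
        · rw [h0] at h5; simp at h5
        · exact h0
      · rw [hM]
        apply Nat.le_floor
        rw [le_div_iff₀ hκ]
        exact h6
    rw [Finset.mem_product]
    have h7 : 0 < ε * τ / 2 := by positivity
    exact ⟨g _ (by linarith) h2, g _ (by linarith) h4⟩
  let C : ℕ → ℕ → Prop := fun a b => τ / 2 ≤ a * κ ∧ ε * τ / 2 ≤ b * κ ∧ bad a b
  have hfib : ∀ s ∈ I ×ˢ I, ((P1.filter (fun p => φ p = s)).card : ℝ) ≤
      δ / 16 * (κ * R) ^ 2 + (if C s.1 s.2 then 4 * (κ * R) ^ 2 else 0) := by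
    intro s hs
    by_cases hC : C s.1 s.2
    · rw [if_pos hC]
      have hsub : P1.filter (fun p => φ p = s) ⊆
          (Finset.Ico ⌈(s.1 : ℝ) * (κ * R)⌉₊ ⌈(s.1 : ℝ) * (κ * R) + κ * R⌉₊) ×ˢ
          (Finset.Ico ⌈(s.2 : ℝ) * (κ * R)⌉₊ ⌈(s.2 : ℝ) * (κ * R) + κ * R⌉₊) := by
        intro p hp
        rw [Finset.mem_filter] at hp
        rw [Finset.mem_product]
        refine ⟨h73_mem_ico hρ ?_, h73_mem_ico hρ ?_⟩
        · rw [← hp.2]
        · rw [← hp.2]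
      have h1 := Finset.card_le_card hsub
      rw [Finset.card_product] at h1
      have h2 := h73_ico_card ((s.1 : ℝ) * (κ * R)) (κ * R) (by positivity) hρ.le
      have h3 := h73_ico_card ((s.2 : ℝ) * (κ * R)) (κ * R) (by positivity) hρ.le
      have h4 : ((P1.filter (fun p => φ p = s)).card : ℝ) ≤
          ((Finset.Ico ⌈(s.1 : ℝ) * (κ * R)⌉₊ ⌈(s.1 : ℝ) * (κ * R) + κ * R⌉₊).card : ℝ) *
          ((Finset.Ico ⌈(s.2 : ℝ) * (κ * R)⌉₊ ⌈(s.2 : ℝ) * (κ * R) + κ * R⌉₊).card : ℝ) := by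
        exact_mod_cast h1
      have h5 := mul_le_mul h2 h3 (by positivity) (by linarith)
      have h6 : (κ * R + 1) * (κ * R + 1) ≤ 4 * (κ * R) ^ 2 := by nlinarith
      have h7 : 0 ≤ δ / 16 * (κ * R) ^ 2 := by positivity
      linarith
    · rw [if_neg hC, add_zero]
      rcases Finset.eq_empty_or_nonempty (P1.filter (fun p => φ p = s)) with he | ⟨q, hq⟩
      · rw [he]
        simp only [Finset.card_empty, Nat.cast_zero]
        positivity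
      · rw [Finset.mem_filter] at hq
        obtain ⟨h1, h2, h3, h4⟩ := hcond q hq.1
        rw [hq.2] at h1 h2 h3 h4
        have hnb : ¬ bad s.1 s.2 := fun hb => hC ⟨h1, h3, hb⟩
        refine le_of_lt (hR₀ s hnb h1 h2 h3 h4 R (hRle s hs) _ ?_ ?_)
        · intro p hp
          rw [Finset.mem_coe, Finset.mem_filter] at hp
          rw [hP1, Finset.mem_filter] at hp
          exact (hPmem p hp.1.1).1
        · intro p hp
          rw [Finset.mem_filter] at hp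
          obtain ⟨ha1, ha2⟩ := h73_floor_bounds hρ
            (show ⌊(p.1 : ℝ) / (κ * R)⌋₊ = s.1 by rw [← hp.2])
          obtain ⟨hb1, hb2⟩ := h73_floor_bounds hρ
            (show ⌊(p.2 : ℝ) / (κ * R)⌋₊ = s.2 by rw [← hp.2])
          refine ⟨by linarith, by linarith, by linarith, by linarith⟩
  have hP1card : (P1.card : ℝ) ≤ δ / 16 * R ^ 2 + δ / 8 * R ^ 2 := by
    have h1 : P1.card = ∑ s ∈ I ×ˢ I, (P1.filter (fun p => φ p = s)).card :=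
      Finset.card_eq_sum_card_fiberwise hmaps
    have h2 : (P1.card : ℝ) ≤ ∑ s ∈ I ×ˢ I,
        (δ / 16 * (κ * R) ^ 2 + (if C s.1 s.2 then 4 * (κ * R) ^ 2 else 0)) := by
      rw [h1]
      push_cast
      exact Finset.sum_le_sum hfib
    rw [Finset.sum_add_distrib, Finset.sum_const, nsmul_eq_mul, Finset.card_product] at h2
    have h3 : ∑ s ∈ I ×ˢ I, (if C s.1 s.2 then 4 * (κ * R) ^ 2 else 0) ≤
        (I.card : ℝ) * (Bd * (4 * (κ * R) ^ 2)) := by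
      rw [Finset.sum_product, ← nsmul_eq_mul]
      apply Finset.sum_le_card_nsmul
      intro a ha
      rw [← Finset.sum_filter, Finset.sum_const, nsmul_eq_mul]
      apply mul_le_mul_of_nonneg_right _ (by positivity)
      by_cases hτa : τ / 2 ≤ (a : ℝ) * κ
      · have haκ : (a : ℝ) * κ ≤ 1 := by
          rw [hI, Finset.mem_Icc] at ha
          have : (a : ℝ) ≤ M := by exact_mod_cast ha.2
          nlinarith
        apply hbad a hτa haκ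
        intro b hb
        rw [Finset.mem_filter] at hb
        exact ⟨hb.2.2.1, hb.2.2.2⟩
      · have : I.filter (fun b => C a b) = ∅ := by
          apply Finset.filter_eq_empty_iff.2
          intro b _ hb
          exact hτa hb.1
        rw [this]
        simpa using hBd.le
    have hIc : (0 : ℝ) ≤ I.card := Nat.cast_nonneg _
    have h4 : ((I.card * I.card : ℕ) : ℝ) * (δ / 16 * (κ * R) ^ 2) ≤ δ / 16 * R ^ 2 := by
      have h5 : ((I.card : ℝ) * κ) * ((I.card : ℝ) * κ) ≤ 1 * 1 :=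
        mul_le_mul hIcard hIcard (by positivity) (by norm_num)
      have h6 : ((I.card * I.card : ℕ) : ℝ) * (δ / 16 * (κ * R) ^ 2) =
          (((I.card : ℝ) * κ) * ((I.card : ℝ) * κ)) * (δ / 16 * R ^ 2) := by
        push_cast; ring
      rw [h6]
      calc _ ≤ (1 * 1) * (δ / 16 * R ^ 2) := mul_le_mul_of_nonneg_right h5 (by positivity)
        _ = _ := by ring
    have h7 : (I.card : ℝ) * (Bd * (4 * (κ * R) ^ 2)) ≤ δ / 8 * R ^ 2 := by
      have h8 : (I.card : ℝ) * (Bd * (4 * (κ * R) ^ 2)) =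
          ((I.card : ℝ) * κ) * (4 * (κ * Bd) * R ^ 2) := by ring
      rw [h8]
      calc _ ≤ 1 * (4 * (κ * Bd) * R ^ 2) := mul_le_mul_of_nonneg_right hIcard (by positivity)
        _ ≤ δ / 8 * R ^ 2 := by
          have : 4 * (κ * Bd) ≤ δ / 8 := by linarith
          have := mul_le_mul_of_nonneg_right this (show (0 : ℝ) ≤ R ^ 2 by positivity)
          linarith
    linarith
  have hfin : (P.card : ℝ) = P0.card + P1.card := by rw [← hsplit]; push_cast; ring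
  have hR2 : 0 < δ * R ^ 2 := by positivity
  rw [hfin] at hden
  linarith

end H991.MU
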